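import Pool.Agent.H5.Short.Main
import Pool.Agent.H5.Short.Contact

/-!
The exact proportion of starting points with at most `c H / log n` primes in `(n, n + H]` at all
scales `0 < H ≤ n`: it is `1 - 1 / c` for every `c > 1`.

The bad points (`BU`) contain, between two consecutive good points `n < n'`, all the integers of
`(n, n')`; there are at most `c (n' - n) / log n` primes in `(n, n']`, in particular none if
`c (n' - n) < log n`. Hence `#primes * log X ≤ c (1 + o(1)) #bad`.
-/

namespace Pool.Agent.H48.Short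

open Finset Filter Topology Pool.Agent.H5.Short

theorem pc_le_of_not_BU {K : ℝ} {X n h : ℕ} (hn : n ∈ Ioc X (2 * X)) (hnB : n ∉ BU K X)
    (h1 : 1 ≤ h) (h2 : h ≤ n) (hX : 1 ≤ X) :
    (pc n h : ℝ) * Real.log X ≤ K * h := by
  classical
  have h3 : ¬ (K * (h : ℝ) < (pc n h : ℝ) * Real.log n) := by
    intro hlt
    apply hnB
    unfold BU
    rw [mem_filter]
    exact ⟨hn, h, h1, h2, hlt⟩
  push Not at h3
  refine le_trans ?_ h3
  apply mul_le_mul_of_nonneg_left _ (Nat.cast_nonneg _)
  exact Real.log_le_log (by exact_mod_cast hX) (by exact_mod_cast (mem_Ioc.mp hn).1.le)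

/-- from a good point to the end -/
theorem from_good (K : ℝ) (hK : 0 < K) (X : ℕ) (hX : 1 ≤ X) (hL : K < Real.log X) :
    ∀ d n : ℕ, 2 * X - n ≤ d → n ∈ Ioc X (2 * X) → n ∉ BU K X →
    (pc n (2 * X - n) : ℝ) * Real.log X ≤
      K * Real.log X / (Real.log X - K) * (((BU K X).filter (fun b => n < b)).card : ℝ) := by
  classical
  set L := Real.log X with hLdef
  have hL0 : 0 < L := hK.trans hL
  have hLK : 0 < L - K := by linarith
  set K' := K * L / (L - K) with hK'
  have hK'0 : 0 < K' := by positivity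
  have hKK' : K ≤ K' := by
    rw [hK', le_div_iff₀ hLK]
    nlinarith
  intro d
  induction d with
  | zero =>
    intro n hd _ _
    have h0 : 2 * X - n = 0 := by omega
    have h1 : pc n 0 = 0 := by simp [pc]
    rw [h0, h1]
    push_cast
    rw [zero_mul]
    positivity
  | succ d ih =>
    intro n hd hn hnB
    have hnI := mem_Ioc.mp hn
    by_cases hne : ((Ioc n (2 * X)).filter (fun b => b ∉ BU K X)).Nonempty
    · set n' := ((Ioc n (2 * X)).filter (fun b => b ∉ BU K X)).min' hne with hn'
      have hn'mem := ((Ioc n (2 * X)).filter (fun b => b ∉ BU K X)).min'_mem hne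
      rw [← hn', mem_filter, mem_Ioc] at hn'mem
      obtain ⟨⟨hlt, hle⟩, hn'B⟩ := hn'mem
      have hmin : ∀ b ∈ (Ioc n (2 * X)).filter (fun b => b ∉ BU K X), n' ≤ b := fun b hb =>
        min'_le _ b hb
      have hI : n' ∈ Ioc X (2 * X) := mem_Ioc.mpr ⟨by omega, hle⟩
      have hih := ih n' (by omega) hI hn'B
      have hsplit : pc n (2 * X - n) = pc n (n' - n) + pc n' (2 * X - n') := by
        have e1 : 2 * X - n = (n' - n) + (2 * X - n') := by omega
        have e2 : n + (n' - n) = n' := by omega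
        rw [e1, pc_add, e2]
      have hcard : ((BU K X).filter (fun b => n' < b)).card + (n' - n - 1) ≤
          ((BU K X).filter (fun b => n < b)).card := by
        have hdis : Disjoint ((BU K X).filter (fun b => n' < b)) (Ioo n n') := by
          rw [disjoint_left]
          intro b hb hb'
          rw [mem_filter] at hb
          rw [mem_Ioo] at hb'
          omega
        have hsub : ((BU K X).filter (fun b => n' < b)) ∪ Ioo n n' ⊆
            (BU K X).filter (fun b => n < b) := by
          intro b hb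
          rw [mem_union] at hb
          rcases hb with hb | hb
          · rw [mem_filter] at hb ⊢
            exact ⟨hb.1, by omega⟩
          · rw [mem_Ioo] at hb
            rw [mem_filter]
            refine ⟨?_, hb.1⟩
            by_contra hcon
            have := hmin b (mem_filter.mpr ⟨mem_Ioc.mpr ⟨hb.1, by omega⟩, hcon⟩)
            omega
        have h1 := card_le_card hsub
        rw [card_union_of_disjoint hdis, Nat.card_Ioo] at h1
        exact h1
      have hgap : (pc n (n' - n) : ℝ) * L ≤ K' * ((n' - n - 1 : ℕ) : ℝ) := by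
        rcases Nat.eq_zero_or_pos (pc n (n' - n)) with h0 | hpos
        · rw [h0]
          push_cast
          rw [zero_mul]
          positivity
        · have h1 := pc_le_of_not_BU hn hnB (h := n' - n) (by omega) (by omega) hX
          have h2 : (1 : ℝ) ≤ (pc n (n' - n) : ℝ) := by exact_mod_cast hpos
          have h3 : L ≤ K * ((n' - n : ℕ) : ℝ) := le_trans (by nlinarith) h1
          refine h1.trans ?_
          have h4 : ((n' - n - 1 : ℕ) : ℝ) = ((n' - n : ℕ) : ℝ) - 1 := by
            rw [Nat.cast_sub (by omega : 1 ≤ n' - n)]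
            push_cast
            ring
          rw [h4, hK', div_mul_eq_mul_div, le_div_iff₀ hLK]
          nlinarith
      rw [hsplit]
      push_cast
      rw [add_mul]
      have hcardR : (((BU K X).filter (fun b => n' < b)).card : ℝ) + ((n' - n - 1 : ℕ) : ℝ) ≤
          (((BU K X).filter (fun b => n < b)).card : ℝ) := by exact_mod_cast hcard
      calc (pc n (n' - n) : ℝ) * L + (pc n' (2 * X - n') : ℝ) * L
          ≤ K' * ((n' - n - 1 : ℕ) : ℝ) + K' * (((BU K X).filter (fun b => n' < b)).card : ℝ) :=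
            add_le_add hgap hih
        _ = K' * ((((BU K X).filter (fun b => n' < b)).card : ℝ) + ((n' - n - 1 : ℕ) : ℝ)) := by
            ring
        _ ≤ _ := mul_le_mul_of_nonneg_left hcardR hK'0.le
    · rw [not_nonempty_iff_eq_empty] at hne
      have hall : Ioc n (2 * X) ⊆ (BU K X).filter (fun b => n < b) := by
        intro b hb
        rw [mem_filter]
        refine ⟨?_, (mem_Ioc.mp hb).1⟩
        by_contra hcon
        have : b ∈ (Ioc n (2 * X)).filter (fun b => b ∉ BU K X) := mem_filter.mpr ⟨hb, hcon⟩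
        rw [hne] at this
        exact absurd this (notMem_empty b)
      have h1 := card_le_card hall
      rw [Nat.card_Ioc] at h1
      have h1R : ((2 * X - n : ℕ) : ℝ) ≤ (((BU K X).filter (fun b => n < b)).card : ℝ) := by
        exact_mod_cast h1
      rcases Nat.eq_zero_or_pos (2 * X - n) with h0 | hpos
      · have h2 : pc n 0 = 0 := by simp [pc]
        rw [h0, h2]
        push_cast
        rw [zero_mul]
        positivity
      · have h2 := pc_le_of_not_BU hn hnB (h := 2 * X - n) hpos (by omega) hX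
        refine h2.trans ?_
        calc K * ((2 * X - n : ℕ) : ℝ) ≤ K' * ((2 * X - n : ℕ) : ℝ) :=
              mul_le_mul_of_nonneg_right hKK' (Nat.cast_nonneg _)
          _ ≤ _ := mul_le_mul_of_nonneg_left h1R hK'0.le

/-- lower bound for the number of bad points -/
theorem BU_card_ge (K η : ℝ) (hK : 1 < K) (hη : 0 < η) : ∃ X0 : ℕ, ∀ X : ℕ, X0 ≤ X →
    (1 / K - η) * X ≤ ((BU K X).card : ℝ) := by
  classical
  have hK0 : 0 < K := by linarith
  set τ : ℝ := min (min η (K - 1)) 1 / 100 with hτ
  have hτ0 : 0 < τ := by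
    have : 0 < min (min η (K - 1)) 1 := lt_min (lt_min hη (by linarith)) one_pos
    positivity
  have hτη : 100 * τ ≤ η := by
    have : min (min η (K - 1)) 1 ≤ η := (min_le_left _ _).trans (min_le_left _ _)
    rw [hτ]; linarith
  have hτK : 100 * τ ≤ K - 1 := by
    have : min (min η (K - 1)) 1 ≤ K - 1 := (min_le_left _ _).trans (min_le_right _ _)
    rw [hτ]; linarith
  have hτ1 : 100 * τ ≤ 1 := by
    have : min (min η (K - 1)) 1 ≤ 1 := min_le_right _ _
    rw [hτ]; linarith
  obtain ⟨X1, hX1⟩ := pnt_unif τ τ hτ0 hτ0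
  have hloglim : ∀ᶠ X : ℕ in atTop, K * (1 + τ) / τ ≤ Real.log X :=
    (Real.tendsto_log_atTop.comp tendsto_natCast_atTop_atTop).eventually_ge_atTop _
  obtain ⟨X2, hX2⟩ := eventually_atTop.mp hloglim
  have hlin : ∀ᶠ X : ℕ in atTop, 1 / τ ≤ (X : ℝ) := tendsto_natCast_atTop_atTop.eventually_ge_atTop _
  obtain ⟨X3, hX3⟩ := eventually_atTop.mp hlin
  refine ⟨max (max X1 X2) (max X3 1), ?_⟩
  intro X hX
  have hXX1 : X1 ≤ X := le_trans (le_trans (le_max_left _ _) (le_max_left _ _)) hX
  have hXX2 : X2 ≤ X := le_trans (le_trans (le_max_right _ _) (le_max_left _ _)) hX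
  have hXX3 : X3 ≤ X := le_trans (le_trans (le_max_left _ _) (le_max_right _ _)) hX
  have hXpos : 1 ≤ X := le_trans (le_trans (le_max_right _ _) (le_max_right _ _)) hX
  have hX0 : (0 : ℝ) < X := by exact_mod_cast hXpos
  have hLτ := hX2 X hXX2
  have hXτ := hX3 X hXX3
  rw [div_le_iff₀ hτ0] at hLτ hXτ
  set L := Real.log X with hLdef
  have hL0 : 0 < L := by
    by_contra hcon
    push Not at hcon
    have : 0 < K * (1 + τ) := by positivity
    nlinarith
  have hKL : K < L := by nlinarith
  have hLK : 0 < L - K := by linarith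
  set K' := K * L / (L - K) with hK'
  have hK'le : K' ≤ K * (1 + τ) := by
    rw [hK', div_le_iff₀ hLK]
    nlinarith
  have hK'0 : 0 < K' := by positivity
  have hbad : (BU K X).card ≤ X := by
    have h1 : (BU K X).card ≤ (Ioc X (2 * X)).card := card_le_card (filter_subset _ _)
    rw [Nat.card_Ioc] at h1
    omega
  by_cases hne : ((Ioc X (2 * X)).filter (fun b => b ∉ BU K X)).Nonempty
  · set n0 := ((Ioc X (2 * X)).filter (fun b => b ∉ BU K X)).min' hne with hn0
    have hmem := ((Ioc X (2 * X)).filter (fun b => b ∉ BU K X)).min'_mem hne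
    rw [← hn0, mem_filter] at hmem
    obtain ⟨hI, hnB⟩ := hmem
    have hI' := mem_Ioc.mp hI
    have hmin : ∀ b ∈ (Ioc X (2 * X)).filter (fun b => b ∉ BU K X), n0 ≤ b := fun b hb =>
      min'_le _ b hb
    have h1 := from_good K hK0 X hXpos hKL (2 * X - n0) n0 le_rfl hI hnB
    rw [← hLdef, ← hK'] at h1
    -- the first gap
    have hfirst : (pc X (n0 - X) : ℝ) * L ≤ (1 + τ) * ((n0 - X : ℕ) : ℝ) + (1 + τ) * (τ * X + 1) := by
      set m := max (n0 - X) ⌈τ * X⌉₊ with hm
      have hm1 : τ * X ≤ (m : ℝ) := (Nat.le_ceil _).trans (by exact_mod_cast le_max_right _ _)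
      have hce : (⌈τ * X⌉₊ : ℝ) < τ * X + 1 := Nat.ceil_lt_add_one (by positivity)
      have hm2 : m ≤ 3 * X := by
        apply max_le
        · omega
        · have : (⌈τ * X⌉₊ : ℝ) ≤ ((3 * X : ℕ) : ℝ) := by
            push_cast
            have hX1 : (1 : ℝ) ≤ X := by exact_mod_cast hXpos
            nlinarith
          exact_mod_cast this
      have h2 := (hX1 X m hXX1 hm1 hm2).2
      have h3 : (pc X (n0 - X) : ℝ) ≤ (pc X m : ℝ) := by
        unfold pc
        exact_mod_cast card_le_card (filter_subset_filter _ (Ioc_subset_Ioc_right (by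
          have : n0 - X ≤ m := le_max_left _ _
          omega)))
      have h4 : (m : ℝ) ≤ ((n0 - X : ℕ) : ℝ) + (τ * X + 1) := by
        have h5 : (m : ℝ) ≤ ((n0 - X : ℕ) : ℝ) + (⌈τ * X⌉₊ : ℝ) := by
          have : m ≤ (n0 - X) + ⌈τ * X⌉₊ := max_le (Nat.le_add_right _ _) (Nat.le_add_left _ _)
          exact_mod_cast this
        linarith
      calc (pc X (n0 - X) : ℝ) * L ≤ (pc X m : ℝ) * L := mul_le_mul_of_nonneg_right h3 hL0.le
        _ ≤ (1 + τ) * (m : ℝ) := h2
        _ ≤ (1 + τ) * (((n0 - X : ℕ) : ℝ) + (τ * X + 1)) :=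
            mul_le_mul_of_nonneg_left h4 (by positivity)
        _ = _ := by ring
    have hsplit : pc X X = pc X (n0 - X) + pc n0 (2 * X - n0) := by
      have e1 : X = (n0 - X) + (2 * X - n0) := by omega
      have e2 : X + (n0 - X) = n0 := by omega
      calc pc X X = pc X ((n0 - X) + (2 * X - n0)) := by rw [← e1]
        _ = pc X (n0 - X) + pc (X + (n0 - X)) (2 * X - n0) := pc_add _ _ _
        _ = _ := by rw [e2]
    have hcard : ((BU K X).filter (fun b => n0 < b)).card + (n0 - X - 1) ≤ (BU K X).card := by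
      have hdis : Disjoint ((BU K X).filter (fun b => n0 < b)) (Ioo X n0) := by
        rw [disjoint_left]
        intro b hb hb'
        rw [mem_filter] at hb
        rw [mem_Ioo] at hb'
        omega
      have hsub : ((BU K X).filter (fun b => n0 < b)) ∪ Ioo X n0 ⊆ BU K X := by
        intro b hb
        rw [mem_union] at hb
        rcases hb with hb | hb
        · exact (mem_filter.mp hb).1
        · rw [mem_Ioo] at hb
          by_contra hcon
          have := hmin b (mem_filter.mpr ⟨mem_Ioc.mpr ⟨hb.1, by omega⟩, hcon⟩)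
          omega
      have h1 := card_le_card hsub
      rw [card_union_of_disjoint hdis, Nat.card_Ioo] at h1
      exact h1
    have hcardR : (((BU K X).filter (fun b => n0 < b)).card : ℝ) + (((n0 - X : ℕ) : ℝ) - 1) ≤
        ((BU K X).card : ℝ) := by
      have h4 : ((n0 - X - 1 : ℕ) : ℝ) = ((n0 - X : ℕ) : ℝ) - 1 := by
        rw [Nat.cast_sub (by omega : 1 ≤ n0 - X)]
        push_cast
        ring
      rw [← h4]
      exact_mod_cast hcard
    have hlow := (hX1 X X hXX1 (by nlinarith) (by omega)).1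
    have hsplitR : (pc X X : ℝ) = (pc X (n0 - X) : ℝ) + (pc n0 (2 * X - n0) : ℝ) := by
      exact_mod_cast hsplit
    rw [← hLdef, hsplitR, add_mul] at hlow
    set B := ((BU K X).card : ℝ) with hB
    set B1 := (((BU K X).filter (fun b => n0 < b)).card : ℝ) with hB1
    set G := ((n0 - X : ℕ) : ℝ) with hG
    have hB10 : 0 ≤ B1 := Nat.cast_nonneg _
    have hG1 : 1 ≤ G := by
      rw [hG]
      exact_mod_cast (by omega : 1 ≤ n0 - X)
    have hmain : (1 - τ) * X ≤ K * (1 + τ) * B + 3 * (τ * X + 1) := by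
      have hKτ : 1 + τ ≤ K * (1 + τ) := by nlinarith
      have h6 : K' * B1 ≤ K * (1 + τ) * B1 := mul_le_mul_of_nonneg_right hK'le hB10
      have h7 : (1 + τ) * (G - 1) ≤ K * (1 + τ) * (G - 1) :=
        mul_le_mul_of_nonneg_right hKτ (by linarith)
      have h8 : K * (1 + τ) * (B1 + (G - 1)) ≤ K * (1 + τ) * B :=
        mul_le_mul_of_nonneg_left hcardR (by positivity)
      have hτX : 0 < τ * X := by positivity
      nlinarith
    have hτX1 : 1 ≤ τ * X := by linarith
    have h9 : (1 - 7 * τ) * X ≤ K * (1 + τ) * B := by nlinarith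
    have hB0 : 0 ≤ B := Nat.cast_nonneg _
    have hBX : B ≤ X := by
      rw [hB]
      exact_mod_cast hbad
    have h10 : (1 - 7 * τ - K * τ) * X ≤ K * B := by nlinarith
    have h11 : (1 / K - η) * X ≤ B := by
      have h12 : K * ((1 / K - η) * X) = (1 - K * η) * X := by field_simp
      have h13 : K * ((1 / K - η) * X) ≤ K * B := by
        rw [h12]
        refine le_trans ?_ h10
        apply mul_le_mul_of_nonneg_right _ hX0.le
        nlinarith
      exact le_of_mul_le_mul_left h13 hK0
    exact h11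
  · rw [not_nonempty_iff_eq_empty] at hne
    have hall : Ioc X (2 * X) ⊆ BU K X := by
      intro b hb
      by_contra hcon
      have : b ∈ (Ioc X (2 * X)).filter (fun b => b ∉ BU K X) := mem_filter.mpr ⟨hb, hcon⟩
      rw [hne] at this
      exact absurd this (notMem_empty b)
    have h1 := card_le_card hall
    rw [Nat.card_Ioc] at h1
    have h2 : (X : ℝ) ≤ ((BU K X).card : ℝ) := by exact_mod_cast (by omega : X ≤ (BU K X).card)
    have h3 : 1 / K - η ≤ 1 := by
      have : 1 / K ≤ 1 := by
        rw [div_le_one hK0]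
        exact hK.le
      linarith
    nlinarith

/-- the exact proportion of good starting points -/
theorem exact_upper (c : ℝ) (hc : 1 < c) :
    Tendsto (fun X : ℕ => ({n : ℕ | X < n ∧ n ≤ 2 * X ∧ ∀ H : ℝ, 0 < H → H ≤ n →
      (((Finset.Ioc n ⌊(n : ℝ) + H⌋₊).filter Nat.Prime).card : ℝ) ≤
        c * (H / Real.log n)}.ncard : ℝ) / X) atTop (𝓝 (1 - 1 / c)) := by
  classical
  have hc0 : 0 < c := by linarith
  rw [Metric.tendsto_atTop]
  intro ε hε
  obtain ⟨X1, hX1⟩ := upper_half (c - 1) (ε / 2) (by linarith) (by positivity)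
  obtain ⟨X2, hX2⟩ := BU_card_ge c (ε / 2) hc (by positivity)
  refine ⟨max (max X1 X2) 1, ?_⟩
  intro X hX
  have hXX1 : X1 ≤ X := le_trans (le_trans (le_max_left _ _) (le_max_left _ _)) hX
  have hXX2 : X2 ≤ X := le_trans (le_trans (le_max_right _ _) (le_max_left _ _)) hX
  have hXpos : 1 ≤ X := le_trans (le_max_right _ _) hX
  have hX0 : (0 : ℝ) < X := by exact_mod_cast hXpos
  have h1 := hX1 X hXX1
  have h2 := hX2 X hXX2
  have e1 : 1 + (c - 1) = c := by ring
  have e2 : (c - 1) / c = 1 - 1 / c := by field_simp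
  rw [e1, e2] at h1
  set S := {n : ℕ | X < n ∧ n ≤ 2 * X ∧ ∀ H : ℝ, 0 < H → H ≤ n →
      (((Finset.Ioc n ⌊(n : ℝ) + H⌋₊).filter Nat.Prime).card : ℝ) ≤
        c * (H / Real.log n)} with hS
  have hsub : S ⊆ (((Ioc X (2 * X)) \ BU c X : Finset ℕ) : Set ℕ) := by
    intro n hn
    obtain ⟨h3, h4, h5⟩ := hn
    rw [mem_coe, Finset.mem_sdiff]
    refine ⟨mem_Ioc.mpr ⟨h3, h4⟩, ?_⟩
    intro hB
    unfold BU at hB
    rw [mem_filter] at hB
    obtain ⟨-, h, hh1, hh2, hh3⟩ := hB
    have h6 := h5 (h : ℝ) (by exact_mod_cast hh1) (by exact_mod_cast hh2)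
    rw [count_eq n h (Nat.cast_nonneg _), Nat.floor_natCast] at h6
    have hnR : (1 : ℝ) < n := by exact_mod_cast (by omega : 1 < n)
    have hlog : 0 < Real.log n := Real.log_pos hnR
    rw [← mul_div_assoc, le_div_iff₀ hlog] at h6
    linarith
  have h3 := Set.ncard_le_ncard hsub (Finset.finite_toSet _)
  rw [Set.ncard_coe_finset] at h3
  have h4 : ((Ioc X (2 * X)) \ BU c X).card + (BU c X).card = X := by
    have h5 := card_sdiff_add_card_eq_card (s := BU c X) (t := Ioc X (2 * X)) (filter_subset _ _)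
    rw [Nat.card_Ioc] at h5
    omega
  have h5 : (S.ncard : ℝ) + ((BU c X).card : ℝ) ≤ X := by
    exact_mod_cast (by omega : S.ncard + (BU c X).card ≤ X)
  rw [Real.dist_eq, abs_lt]
  constructor
  · rw [lt_sub_iff_add_lt, lt_div_iff₀ hX0]
    nlinarith
  · rw [sub_lt_iff_lt_add, div_lt_iff₀ hX0]
    nlinarith

end Pool.Agent.H48.Short
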